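import Mathlib

namespace Pool.Agent.Results.MP_becf51_an.Yes

open MeasureTheory AddCircle Real Set
open scoped Matrix.Norms.L2Operator ComplexConjugate

/-- the Toeplitz matrix with entries a (j - k) -/
def Toep (N : ℕ) (a : ℤ → ℂ) : Matrix (Fin (N + 1)) (Fin (N + 1)) ℂ :=
  Matrix.of fun j k => a ((j : ℕ) - (k : ℕ))

/-- spectral norm -/
noncomputable def opn {n : ℕ} (A : Matrix (Fin n) (Fin n) ℂ) : ℝ := ‖A‖

/-- the claim for one N -/
def Big (N : ℕ) : Prop :=
  ∃ a : ℤ → ℂ, (∀ n, a (-n) = conj (a n)) ∧ Toep N a ≠ 0 ∧ ∃ c : ℝ, π / 2 * opn (Toep N a) < c ∧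
    ∀ f : Lp ℂ ⊤ (haarAddCircle : Measure (AddCircle (1 : ℝ))),
      (∀ n : ℤ, |n| ≤ N → fourierCoeff f n = a n) → c ≤ ‖f‖

noncomputable def a (k m : ℕ) (n : ℤ) : ℂ :=
  (if n = 0 then 1 else 0) - ((2 / m : ℝ) : ℂ) * if (k : ℤ) ∣ n then 1 else 0

theorem nrm {N k m : ℕ} (hk : 0 < k) (hm : N < m * k) : opn (Toep N (a k m)) ≤ 1 := by
  have m0 : (0 : ℝ) < m := by
    have : 0 < m := Nat.pos_of_ne_zero fun h => by simp [h] at hm
    exact_mod_cast this
  rw [opn, Matrix.l2_opNorm_def]
  refine ContinuousLinearMap.opNorm_le_bound _ zero_le_one fun x => ?_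
  rw [one_mul, EuclideanSpace.norm_eq, EuclideanSpace.norm_eq]
  refine sqrt_le_sqrt ?_
  let F : ℕ → Finset (Fin (N + 1)) := fun r => Finset.univ.filter fun j => (j : ℕ) % k = r
  have e : ∀ j : Fin (N + 1), (Toep N (a k m)).mulVec x j =
      x j - ((2 / m : ℝ) : ℂ) * ∑ l ∈ F (j % k), x l := fun j => by
    have : ∀ l : Fin (N + 1), ((k : ℤ) ∣ (j : ℕ) - (l : ℕ)) ↔ (l : ℕ) % k = j % k := fun l =>
      Nat.modEq_iff_dvd.symm
    simp only [Matrix.mulVec, dotProduct, Toep, Matrix.of_apply, a, sub_mul, Finset.sum_sub_distrib,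
      sub_eq_zero, Nat.cast_inj, Fin.val_inj, ite_mul, one_mul, zero_mul, Finset.sum_ite_eq,
      Finset.mem_univ, if_true, this, mul_assoc, ← Finset.mul_sum, F, Finset.sum_filter]
  show ∑ j, ‖(Toep N (a k m)).mulVec x j‖ ^ 2 ≤ ∑ j, ‖x j‖ ^ 2
  have hm' : ∀ j ∈ (Finset.univ : Finset (Fin (N + 1))), (j : ℕ) % k ∈ Finset.range k :=
    fun j _ => Finset.mem_range.2 (Nat.mod_lt _ hk)
  rw [← Finset.sum_fiberwise_of_maps_to hm', ← Finset.sum_fiberwise_of_maps_to hm']
  refine Finset.sum_le_sum fun r _ => ?_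
  have hc : ((F r).card : ℝ) ≤ m := by
    have : (F r).card ≤ (Finset.range m).card := by
      refine Finset.card_le_card_of_injOn (fun j => (j : ℕ) / k) (fun j _ => ?_)
        fun i hi j hj h => Fin.ext ?_
      · simp only [Finset.coe_range, mem_Iio]
        rw [Nat.div_lt_iff_lt_mul hk]
        omega
      · simp only [F, Finset.coe_filter, Finset.mem_univ, true_and, mem_ofPred_eq] at hi hj h
        rw [← Nat.div_add_mod i k, ← Nat.div_add_mod j k, h, hi, hj]
    rw [Finset.card_range] at this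
    exact_mod_cast this
  show ∑ j ∈ F r, _ ≤ ∑ j ∈ F r, _
  rw [Finset.sum_congr rfl fun j hj => by rw [e, (Finset.mem_filter.1 hj).2]]
  obtain ⟨S, hS⟩ : ∃ S, S = ∑ l ∈ F r, x l := ⟨_, rfl⟩
  rw [← hS]
  have e2 : ∀ j, ‖x j - ((2 / m : ℝ) : ℂ) * S‖ ^ 2 = ‖x j‖ ^ 2 + (2 / m) ^ 2 * ‖S‖ ^ 2 -
      2 * (2 / m) * (x j * conj S).re := fun j => by
    generalize (2 / m : ℝ) = t
    simp only [Complex.sq_norm, Complex.normSq_apply]
    simp
    ring
  simp only [e2, Finset.sum_sub_distrib, Finset.sum_add_distrib, Finset.sum_const, nsmul_eq_mul,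
    ← Finset.mul_sum, ← Complex.re_sum, ← Finset.sum_mul, ← hS, Complex.mul_conj',
    ← Complex.ofReal_pow, Complex.ofReal_re]
  have h1 := mul_le_mul_of_nonneg_right hc (by positivity : 0 ≤ (2 / m : ℝ) ^ 2 * ‖S‖ ^ 2)
  have h2 : m * ((2 / m : ℝ) ^ 2 * ‖S‖ ^ 2) = 2 * (2 / m) * ‖S‖ ^ 2 := by field_simp
  linarith

theorem l1 {u w α : ℝ} (h0 : 0 ≤ α) (h1 : α ≤ π) (g : ℝ → ℝ) (hg : ∀ x, 0 ≤ g x)
    (h : ∀ x, cos x + u * cos (2 * x) + w * cos (3 * x) = (cos x - cos α) * g x) :
    ∫ x in -α..-α + 2 * π, |cos x + u * cos (2 * x) + w * cos (3 * x)| =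
      4 * (sin α + u * sin (2 * α) / 2 + w * sin (3 * α) / 3) := by
  have d : ∀ s t, ∫ x in s..t, (cos x + u * cos (2 * x) + w * cos (3 * x)) =
      (sin t + u * sin (2 * t) / 2 + w * sin (3 * t) / 3) -
        (sin s + u * sin (2 * s) / 2 + w * sin (3 * s) / 3) := fun s t => by
    refine intervalIntegral.integral_eq_sub_of_hasDerivAt
      (f := fun t => sin t + u * sin (2 * t) / 2 + w * sin (3 * t) / 3) (fun x _ => ?_)
      (Continuous.intervalIntegrable (by fun_prop) _ _)
    exact (((hasDerivAt_sin x).add (((((hasDerivAt_id x).const_mul 2).sin).const_mul u).div_const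
      2)).add (((((hasDerivAt_id x).const_mul 3).sin).const_mul w).div_const 3)).congr_deriv
      (by simp; ring)
  rw [← intervalIntegral.integral_add_adjacent_intervals (b := α)
    (Continuous.intervalIntegrable (by fun_prop) _ _)
    (Continuous.intervalIntegrable (by fun_prop) _ _),
    intervalIntegral.integral_congr (g := fun x => cos x + u * cos (2 * x) + w * cos (3 * x)),
    intervalIntegral.integral_congr (a := α)
      (g := fun x => -(cos x + u * cos (2 * x) + w * cos (3 * x))),
    intervalIntegral.integral_neg, d, d,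
    show 2 * (-α + 2 * π) = -(2 * α) + (2 : ℕ) * (2 * π) by push_cast; ring,
    show 3 * (-α + 2 * π) = -(3 * α) + (3 : ℕ) * (2 * π) by push_cast; ring]
  · simp only [sin_add_nat_mul_two_pi, sin_add_two_pi, mul_neg, sin_neg]
    ring
  · intro x hx
    rw [uIcc_of_le (by linarith)] at hx
    refine abs_of_nonpos ?_
    rw [h]
    refine mul_nonpos_of_nonpos_of_nonneg (sub_nonpos.2 ?_) (hg x)
    rcases le_total x π with hx' | hx'
    · exact cos_le_cos_of_nonneg_of_le_pi h0 hx' hx.1
    · rw [← cos_two_pi_sub x]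
      exact cos_le_cos_of_nonneg_of_le_pi h0 (by linarith) (by linarith [hx.2])
  · intro x hx
    rw [uIcc_of_le (by linarith)] at hx
    refine abs_of_nonneg ?_
    rw [h]
    refine mul_nonneg (sub_nonneg.2 ?_) (hg x)
    rw [← cos_abs x]
    exact cos_le_cos_of_nonneg_of_le_pi (abs_nonneg _) h1 (abs_le.2 hx)

theorem core {N k m : ℕ} (hk : 0 < k) (hm : N < m * k) (h2 : 2 * k ≤ N) {u w P : ℝ}
    (h3 : w = 0 ∨ 3 * k ≤ N) (α : ℝ) (hP : 0 < P) (hP' : m * P < 2 * (1 + u + w))
    (h : ∫ x in -α..-α + 2 * π, |cos x + u * cos (2 * x) + w * cos (3 * x)| = 4 * P) :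
    Big N := by
  have m0 : (0 : ℝ) < m := by
    have : 0 < m := Nat.pos_of_ne_zero fun h => by simp [h] at hm
    exact_mod_cast this
  have k0 : (0 : ℝ) < k := by exact_mod_cast hk
  have ha : ∀ j : ℤ, j ≠ 0 → a k m (j * k) = -(2 / m : ℝ) := fun j hj => by
    simp [a, hj, hk.ne']
  have p := pi_pos
  refine ⟨a k m, fun n => ?_, fun h => ?_, π * (1 + u + w) / (m * P), ?_, fun f hf => ?_⟩
  · simp only [a, neg_eq_zero, dvd_neg, map_sub, map_mul, Complex.conj_ofReal]
    split_ifs <;> simp
  · have := congrFun (congrFun h ⟨k, by omega⟩) 0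
    simp only [Toep, Matrix.of_apply, Fin.val_zero, Nat.cast_zero, sub_zero, Matrix.zero_apply]
      at this
    rw [← one_mul (k : ℤ), ha 1 one_ne_zero, neg_eq_zero, Complex.ofReal_eq_zero] at this
    exact absurd this (by positivity)
  · rw [lt_div_iff₀ (by positivity)]
    have := mul_le_mul_of_nonneg_left (nrm hk hm) (by positivity : 0 ≤ π / 2 * (m * P))
    nlinarith
  let q : AddCircle (1 : ℝ) → ℂ := fun t => fourier (-(1 * k)) t + fourier (-(-1 * k)) t +
    u * (fourier (-(2 * k)) t + fourier (-(-2 * k)) t) +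
    w * (fourier (-(3 * k)) t + fourier (-(-3 * k)) t)
  have qc : Continuous q := by fun_prop
  have fi : Integrable f haarAddCircle := (Lp.memLp f).integrable le_top
  have i : ∀ n : ℤ, Integrable (fun t => fourier n t * f t) haarAddCircle := fun n =>
    fi.bdd_mul (c := 1) (by fun_prop) (ae_of_all _ fun t => by simp [fourier_apply])
  have c : ∀ j : ℤ, j ≠ 0 → |j * k| ≤ N →
      ∫ t, fourier (-(j * k)) t * f t ∂haarAddCircle = -(2 / m : ℝ) := fun j h1 h2 =>
    (hf _ h2).trans (ha j h1)
  have e1 : ∫ t, q t * f t ∂haarAddCircle = (-(4 * (1 + u + w) / m) : ℝ) := by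
    simp only [q, add_mul, mul_assoc]
    rw [integral_add, integral_add, integral_add (i _) (i _), integral_const_mul,
      integral_const_mul, integral_add (i _) (i _), integral_add (i _) (i _),
      c 1 (by simp) (by rw [abs_le]; omega), c (-1) (by simp) (by rw [abs_le]; omega),
      c 2 (by simp) (by rw [abs_le]; omega), c (-2) (by simp) (by rw [abs_le]; omega)]
    · rcases h3 with rfl | h3
      · push_cast; ring
      · rw [c 3 (by simp) (by rw [abs_le]; omega), c (-3) (by simp) (by rw [abs_le]; omega)]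
        push_cast; ring
    · exact (i _).add (i _)
    · exact ((i _).add (i _)).const_mul _
    · exact ((i _).add (i _)).add (((i _).add (i _)).const_mul _)
    · exact ((i _).add (i _)).const_mul _
  have e2 : ∫ t, ‖q t‖ ∂haarAddCircle = 4 * P / π := by
    have hq : ∀ x : ℝ, ‖q x‖ = 2 * |cos (2 * π * k * x) + u * cos (2 * (2 * π * k * x)) +
        w * cos (3 * (2 * π * k * x))| := fun x => by
      have : ∀ j : ℤ, fourier (-(j * k)) (x : AddCircle (1 : ℝ)) +
          fourier (-(-j * k)) (x : AddCircle (1 : ℝ)) =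
          (2 * cos (j * (2 * π * k * x)) : ℝ) := fun j => by
        rw [fourier_coe_apply, fourier_coe_apply]
        push_cast
        rw [Complex.two_cos, add_comm]
        congr 2 <;> ring
      have t1 := this 1
      have t2 := this 2
      have t3 := this 3
      simp only [q]
      rw [t1, t2, t3, ← Complex.ofReal_mul, ← Complex.ofReal_mul, ← Complex.ofReal_add,
        ← Complex.ofReal_add, Complex.norm_real, Real.norm_eq_abs]
      push_cast
      rw [one_mul]
      generalize 2 * π * k * x = y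
      rw [show 2 * cos y + u * (2 * cos (2 * y)) + w * (2 * cos (3 * y)) =
        2 * (cos y + u * cos (2 * y) + w * cos (3 * y)) by ring, abs_mul, abs_two]
    have per : Function.Periodic (fun x => |cos x + u * cos (2 * x) + w * cos (3 * x)|) (2 * π) :=
      fun x => by
        simp only
        rw [show 2 * (x + 2 * π) = 2 * x + (2 : ℕ) * (2 * π) by push_cast; ring,
          show 3 * (x + 2 * π) = 3 * x + (3 : ℕ) * (2 * π) by push_cast; ring,
          cos_add_nat_mul_two_pi, cos_add_nat_mul_two_pi, cos_add_two_pi]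
    have s := per.intervalIntegral_add_zsmul_eq k 0
      (fun _ _ => Continuous.intervalIntegrable (by fun_prop) _ _)
    rw [per.intervalIntegral_add_eq 0 (-α), h] at s
    rw [integral_haarAddCircle, ← AddCircle.intervalIntegral_preimage 1 0]
    simp only [hq]
    rw [intervalIntegral.integral_const_mul, intervalIntegral.integral_comp_mul_left
      (fun x => |cos x + u * cos (2 * x) + w * cos (3 * x)|) (by positivity),
      show 2 * π * k * (0 + 1) = 0 + (k : ℤ) • (2 * π) by simp; ring, mul_zero, s]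
    simp
    field_simp
  have e3 := norm_integral_le_of_norm_le (f := fun t => q t * f t) (μ := haarAddCircle)
    ((qc.norm.integrable_of_hasCompactSupport (HasCompactSupport.of_compactSpace _)).mul_const ‖f‖)
    (by
      filter_upwards [ae_le_eLpNormEssSup (f := f) (μ := haarAddCircle)] with t ht
      rw [norm_mul]
      refine mul_le_mul_of_nonneg_left ?_ (norm_nonneg _)
      rw [Lp.norm_def, eLpNorm_exponent_top, ← toReal_enorm]
      exact ENNReal.toReal_mono (by simpa using Lp.eLpNorm_ne_top f) ht)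
  have : 0 < 1 + u + w := by nlinarith
  rw [e1, integral_mul_const, e2, Complex.norm_real, norm_neg,
    Real.norm_of_nonneg (by positivity), div_le_iff₀ m0, div_mul_eq_mul_div, div_mul_eq_mul_div,
    le_div_iff₀ p] at e3
  rw [div_le_iff₀ (by positivity)]
  linarith

theorem result (N : ℕ) (hN : 2 ≤ N) : Big N := by
  by_cases h3 : N = 3
  · have s := sq_sqrt (zero_le_two (α := ℝ))
    have s0 := sqrt_pos.2 (zero_lt_two (α := ℝ))
    refine core (k := 1) (m := 4) (u := √2) (w := 1) (P := 7 * √2 / 6) one_pos (by omega) (by omega)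
      (Or.inr (by omega)) (π / 4) (by positivity) (by push_cast; nlinarith) ?_
    rw [l1 (by positivity) (by linarith [pi_pos]) (fun x => (2 * cos x + √2) ^ 2)
      (fun x => by positivity) fun x => by
        rw [cos_two_mul, cos_three_mul, cos_pi_div_four]
        linear_combination (cos x + √2 / 2) * s,
      show 2 * (π / 4) = π / 2 by ring, show 3 * (π / 4) = π - π / 4 by ring, sin_pi_sub,
      sin_pi_div_four, sin_pi_div_two]
    ring
  · have s := sq_sqrt (zero_le_three (α := ℝ))
    have s0 := sqrt_pos.2 (zero_lt_three (α := ℝ))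
    refine core (k := N / 2) (m := 3) (u := 1) (w := 0) (P := 3 * √3 / 4) (by omega) (by omega)
      (by omega) (Or.inl rfl) (π / 3) (by positivity) (by push_cast; nlinarith) ?_
    rw [l1 (by positivity) (by linarith [pi_pos]) (fun x => 2 * (cos x + 1))
      (fun x => by linarith [neg_one_le_cos x]) fun x => by
        rw [cos_two_mul, cos_pi_div_three]
        ring,
      show 2 * (π / 3) = π - π / 3 by ring, sin_pi_sub, sin_pi_div_three]
    ring

end Pool.Agent.Results.MP_becf51_an.Yes
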